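import Mathlib

set_option autoImplicit false

namespace Pool.Agent.Results.MP_6bd6f6_an.Counter

open Topology Filter

def IsTransitive {X : Type} [TopologicalSpace X] (T : X → X) : Prop :=
  ∀ U V : Set X, IsOpen U → U.Nonempty → IsOpen V → V.Nonempty →
    ∃ n : ℕ, (U ∩ T^[n] ⁻¹' V).Nonempty

def IsMinSet {X : Type} [TopologicalSpace X] (T : X → X) (M : Set X) : Prop :=
  M.Nonempty ∧ IsClosed M ∧ Set.MapsTo T M M ∧
    ∀ N ⊆ M, N.Nonempty → IsClosed N → Set.MapsTo T N N → N = M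

def IsMSystem {X : Type} [TopologicalSpace X] (T : X → X) : Prop :=
  IsTransitive T ∧ Dense {x | ∃ M, IsMinSet T M ∧ x ∈ M}

def LiYorkeSensitive {X : Type} [MetricSpace X] (T : X → X) : Prop :=
  ∃ δ : ℝ, 0 < δ ∧ ∀ x : X, ∀ U ∈ 𝓝 x, ∃ y ∈ U,
    liminf (fun n : ℕ => dist (T^[n] x) (T^[n] y)) atTop = 0 ∧
      δ < limsup (fun n : ℕ => dist (T^[n] x) (T^[n] y)) atTop

abbrev Z : Type := ℤ_[2]

noncomputable def ρ (K : ℕ) (z : Z) : ℕ := (PadicInt.toZModPow K z).val

lemma r_lt (K : ℕ) (z : Z) : ρ K z < 2 ^ K := ZMod.val_lt _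

lemma r_add (K : ℕ) (z : Z) (n : ℕ) : ρ K (z + n) = (ρ K z + n) % 2 ^ K := by
  unfold ρ
  rw [map_add, map_natCast, ZMod.val_add, ZMod.val_natCast, Nat.add_mod_mod]

lemma r_nat (K n : ℕ) : ρ K (n : Z) = n % 2 ^ K := by
  unfold ρ
  rw [map_natCast, ZMod.val_natCast]

lemma r_mod {k K : ℕ} (h : k ≤ K) (z : Z) : ρ k z = ρ K z % 2 ^ k := by
  unfold ρ
  rw [← PadicInt.cast_toZModPow k K h z, ZMod.cast_eq_val, ZMod.val_natCast]

lemma r_eq_iff (K : ℕ) (z w : Z) : ρ K z = ρ K w ↔ dist z w ≤ (1 / 2 : ℝ) ^ K := by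
  have e : (1 / 2 : ℝ) ^ K = ((2 : ℕ) : ℝ) ^ (-K : ℤ) := by
    rw [zpow_neg, zpow_natCast, one_div, inv_pow, Nat.cast_ofNat]
  rw [e, dist_eq_norm, PadicInt.norm_le_pow_iff_mem_span_pow, ← PadicInt.ker_toZModPow,
    RingHom.mem_ker, map_sub, sub_eq_zero]
  exact (ZMod.val_injective _).eq_iff

lemma r_cont (K : ℕ) : Continuous (ρ K) :=
  ((IsLocallyConstant.iff_eventually_eq _).2 fun z =>
    Metric.eventually_nhds_iff.2 ⟨(1 / 2) ^ K, by positivity, fun _ h =>
      (r_eq_iff K _ z).2 h.le⟩).continuous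

def P (x : (ℕ → Bool) × Z) : Prop :=
  ∀ p k i : ℕ, x.1 p = true → ρ k (x.2 + p) = 0 → 0 < i → i < 2 ^ k → x.1 (p + i) = false

def Y : Type := {x : (ℕ → Bool) × Z // P x}

noncomputable instance : MetricSpace Y :=
  letI : MetricSpace (ℕ → Bool) := PiNat.metricSpace
  inferInstanceAs (MetricSpace {x : (ℕ → Bool) × Z // P x})

lemma closedP : IsClosed {x : (ℕ → Bool) × Z | P x} := by
  have : {x : (ℕ → Bool) × Z | P x} = ⋂ p : ℕ, ⋂ k : ℕ, ⋂ i : ℕ,
      (fun x : (ℕ → Bool) × Z => (x.1 p, ρ k (x.2 + p), x.1 (p + i))) ⁻¹'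
        {t | t.1 = true → t.2.1 = 0 → 0 < i → i < 2 ^ k → t.2.2 = false} := by
    ext x; simp only [P, Set.mem_ofPred_eq, Set.mem_iInter, Set.mem_preimage]
  rw [this]
  refine isClosed_iInter fun p => isClosed_iInter fun k => isClosed_iInter fun i => ?_
  refine (isClosed_discrete _).preimage ?_
  exact ((continuous_apply p).comp continuous_fst).prodMk
    (((r_cont k).comp (continuous_snd.add continuous_const)).prodMk
      ((continuous_apply (p + i)).comp continuous_fst))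

instance : CompactSpace Y := isCompact_iff_compactSpace.1 closedP.isCompact

lemma dist_le {x y : Y} {r : ℕ} (h : ∀ i < r, x.1.1 i = y.1.1 i) (h2 : ρ r x.1.2 = ρ r y.1.2) :
    dist x y ≤ (1 / 2) ^ r :=
  max_le (PiNat.mem_cylinder_iff_dist_le.1 (PiNat.mem_cylinder_iff.2 h)) ((r_eq_iff _ _ _).1 h2)

lemma dist_ge (x y : Y) : dist x.1.2 y.1.2 ≤ dist x y := le_max_right _ _

noncomputable def T (y : Y) : Y :=
  ⟨(fun n => y.1.1 (n + 1), y.1.2 + 1), fun p k i h1 h2 h3 h4 => by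
    have := y.2 (p + 1) k i h1 (by rw [← h2]; congr 1; push_cast; ring) h3 h4
    rwa [show p + 1 + i = p + i + 1 by omega] at this⟩

lemma T_iter (n : ℕ) (y : Y) : (T^[n] y).1.2 = y.1.2 + n := by
  induction n generalizing y with
  | zero => simp
  | succ n ih =>
    rw [Function.iterate_succ_apply, ih]
    show y.1.2 + 1 + n = _
    push_cast; ring

lemma cont_ev (h : ℕ) : Continuous fun x : Y => x.1.1 h :=
  (continuous_apply h).comp (continuous_fst.comp continuous_subtype_val)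

lemma T_cont : Continuous T :=
  Continuous.subtype_mk ((continuous_pi fun h => cont_ev (h + 1)).prodMk
    ((continuous_snd.comp continuous_subtype_val).add continuous_const)) _

lemma T_surj : Function.Surjective T := by
  intro y
  refine ⟨⟨(fun n => Nat.casesOn n false y.1.1, y.1.2 - 1), ?_⟩, ?_⟩
  · intro p k i h1 h2 h3 h4
    cases p with
    | zero => simp at h1
    | succ p =>
      rw [show p + 1 + i = p + i + 1 by omega]
      exact y.2 p k i h1 (by rw [← h2]; congr 1; push_cast; ring) h3 h4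
  · exact Subtype.ext (Prod.ext rfl (sub_add_cancel _ _))

lemma cyl {z : Y} {U : Set Y} (hU : U ∈ 𝓝 z) :
    ∃ L, ∀ L', L ≤ L' → ∀ y : Y, (∀ i < L', y.1.1 i = z.1.1 i) → ρ L' y.1.2 = ρ L' z.1.2 →
      y ∈ U := by
  obtain ⟨ε, hε, h⟩ := Metric.mem_nhds_iff.1 hU
  obtain ⟨L, hL⟩ := exists_pow_lt_of_lt_one hε (show (1 / 2 : ℝ) < 1 by norm_num)
  refine ⟨L, fun L' hL' y h1 h2 => h ((dist_le h1 h2).trans_lt (lt_of_le_of_lt ?_ hL))⟩
  exact pow_le_pow_of_le_one (by norm_num) (by norm_num) hL'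

def Adm (G : ℕ → Bool) : Prop :=
  G 0 = false ∧ ∀ p k i, G p = true → 2 ^ k ∣ p → 0 < i → i < 2 ^ k → G (p + i) = false

noncomputable def φ {G : ℕ → Bool} (hG : Adm G) (K : ℕ) (z : Z) : Y :=
  ⟨(fun n => G (ρ K (z + n)), z), fun p k i h1 h2 h3 h4 => by
    simp only at h1 h2 ⊢
    have hk : k ≤ K := by
      by_contra hc
      rw [r_mod (le_of_not_ge hc), h2, Nat.zero_mod, hG.1] at h1
      exact absurd h1 (by decide)
    rw [r_mod hk] at h2
    have h5 := Nat.dvd_of_mod_eq_zero h2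
    have h6 := r_lt K (z + p)
    have h7 : 2 ^ k ≤ 2 ^ K - ρ K (z + p) :=
      Nat.le_of_dvd (by omega) (Nat.dvd_sub (pow_dvd_pow 2 hk) h5)
    rw [Nat.cast_add, ← add_assoc, r_add, Nat.mod_eq_of_lt (by omega)]
    exact hG.2 _ k i h1 h5 h3 h4⟩

lemma φ_cont {G : ℕ → Bool} (hG : Adm G) (K : ℕ) : Continuous (φ hG K) :=
  Continuous.subtype_mk ((continuous_pi fun _ => continuous_of_discreteTopology.comp
    ((r_cont K).comp (continuous_id.add continuous_const))).prodMk continuous_id) _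

lemma T_φ {G : ℕ → Bool} (hG : Adm G) (K : ℕ) (z : Z) : T (φ hG K z) = φ hG K (z + 1) := by
  refine Subtype.ext (Prod.ext (funext fun n => ?_) rfl)
  show G (ρ K (z + ((n + 1 : ℕ) : Z))) = G (ρ K (z + 1 + n))
  congr 2; push_cast; ring

lemma T_φn {G : ℕ → Bool} (hG : Adm G) (K : ℕ) (z : Z) (n : ℕ) :
    T^[n] (φ hG K z) = φ hG K (z + n) := by
  induction n with
  | zero => simp
  | succ n ih => rw [Function.iterate_succ_apply', ih, T_φ, Nat.cast_succ, add_assoc]

lemma minφ {G : ℕ → Bool} (hG : Adm G) (K : ℕ) : IsMinSet T (Set.range (φ hG K)) := by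
  refine ⟨Set.range_nonempty _, (isCompact_range (φ_cont hG K)).isClosed, ?_, ?_⟩
  · rintro _ ⟨z, rfl⟩
    exact ⟨z + 1, (T_φ hG K z).symm⟩
  · rintro N hN ⟨x, hx⟩ hc hm
    obtain ⟨t, rfl⟩ := hN hx
    refine Set.Subset.antisymm hN ?_
    rintro _ ⟨s, rfl⟩
    have h1 : IsClosed {u : Z | φ hG K (t + u) ∈ N} :=
      hc.preimage ((φ_cont hG K).comp (continuous_const.add continuous_id))
    have h2 : s - t ∈ {u : Z | φ hG K (t + u) ∈ N} := by
      refine h1.closure_subset_iff.2 ?_ (PadicInt.denseRange_natCast (s - t))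
      rintro _ ⟨n, rfl⟩
      show φ hG K (t + n) ∈ N
      rw [← T_φn]
      exact hm.iterate n hx
    simpa using h2

lemma inherit (x : Y) {L a j k i : ℕ} (ha : a % 2 ^ L = ρ L x.1.2) (hj : j + i < L)
    (h1 : x.1.1 j = true) (h2 : 2 ^ k ∣ a + j) (h3 : 0 < i) (h4 : i < 2 ^ k) :
    x.1.1 (j + i) = false := by
  have hL : L < 2 ^ L := Nat.lt_two_pow_self
  refine x.2 j (min k L) i h1 ?_ h3 ?_
  · rw [r_mod (min_le_right k L), r_add, ← ha, Nat.mod_add_mod,
      Nat.mod_mod_of_dvd _ (pow_dvd_pow 2 (min_le_right k L))]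
    exact Nat.mod_eq_zero_of_dvd ((pow_dvd_pow 2 (min_le_left k L)).trans h2)
  · rcases le_total k L with h | h
    · rwa [min_eq_left h]
    · rw [min_eq_right h]; omega

lemma exa (z : Z) (L A : ℕ) : ∃ a, A < a ∧ a % 2 ^ L = ρ L z := by
  refine ⟨ρ L z + 2 ^ L * (A + 1), ?_, ?_⟩
  · have : A + 1 ≤ 2 ^ L * (A + 1) := Nat.le_mul_of_pos_left _ (by positivity)
    omega
  · rw [Nat.add_mul_mod_self_left, Nat.mod_eq_of_lt (r_lt L z)]

lemma key {x w : Y} {U V : Set Y} (hU : U ∈ 𝓝 x) (hV : V ∈ 𝓝 w) (A : ℕ) :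
    ∃ (G : ℕ → Bool) (hG : Adm G) (K a b : ℕ), A < a ∧ a ≤ b ∧ φ hG K a ∈ U ∧ φ hG K b ∈ V := by
  obtain ⟨L1, g1⟩ := cyl hU
  obtain ⟨L2, g2⟩ := cyl hV
  obtain ⟨L, l1, l2⟩ : ∃ L, L1 ≤ L ∧ L2 ≤ L := ⟨L1 + L2, by omega, by omega⟩
  obtain ⟨a, a1, a2⟩ := exa x.1.2 L A
  obtain ⟨b, b1, b2⟩ := exa w.1.2 L (2 * (a + L))
  have hK : b + L < 2 ^ (b + L) := Nat.lt_two_pow_self
  refine ⟨fun n => if a ≤ n ∧ n < a + L then x.1.1 (n - a) else
    if b ≤ n ∧ n < b + L then w.1.1 (n - b) else false, ⟨?_, ?_⟩, b + L, a, b, a1, by omega,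
    g1 L l1 _ (fun i hi => ?_) ?_, g2 L l2 _ (fun i hi => ?_) ?_⟩
  · simp only
    rw [if_neg (by omega), if_neg (by omega)]
  · intro p k i h1 h2 h3 h4
    simp only at h1 ⊢
    by_cases c1 : a ≤ p ∧ p < a + L
    · rw [if_pos c1] at h1
      have := Nat.le_of_dvd (by omega) h2
      by_cases c2 : p + i < a + L
      · rw [if_pos (by omega), show p + i - a = p - a + i by omega]
        exact inherit x a2 (by omega) h1 (by rwa [show a + (p - a) = p by omega]) h3 h4
      · rw [if_neg (by omega), if_neg (by omega)]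
    · rw [if_neg c1] at h1
      by_cases c3 : b ≤ p ∧ p < b + L
      · rw [if_pos c3] at h1
        rw [if_neg (by omega)]
        by_cases c4 : p + i < b + L
        · rw [if_pos (by omega), show p + i - b = p - b + i by omega]
          exact inherit w b2 (by omega) h1 (by rwa [show b + (p - b) = p by omega]) h3 h4
        · rw [if_neg (by omega)]
      · rw [if_neg c3] at h1
        exact absurd h1 (by decide)
  · simp only [φ]
    rw [← Nat.cast_add, r_nat, Nat.mod_eq_of_lt (by omega), if_pos (by omega),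
      Nat.add_sub_cancel_left]
  · exact (r_nat _ _).trans a2
  · simp only [φ]
    rw [← Nat.cast_add, r_nat, Nat.mod_eq_of_lt (by omega), if_neg (by omega), if_pos (by omega),
      Nat.add_sub_cancel_left]
  · exact (r_nat _ _).trans b2

noncomputable def x0 : Y := ⟨(fun n => decide (n = 0), 0), fun p k i _ _ h3 _ => by
  simp only [decide_eq_false_iff_not]; omega⟩

lemma adm0 : Adm fun _ => false := ⟨rfl, fun _ _ _ h => by simp at h⟩

theorem result : ∃ (X : Type) (_ : MetricSpace X) (_ : CompactSpace X) (T : X → X),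
    Nontrivial X ∧ (∀ x : X, ∀ U ∈ 𝓝 x, ∃ y ∈ U, y ≠ x) ∧ Continuous T ∧ Function.Surjective T ∧
    IsMSystem T ∧ ¬ IsMinSet T Set.univ ∧ ¬ LiYorkeSensitive T := by
  have hne : ∀ z, φ adm0 0 z ≠ x0 := fun z e => by
    simpa [φ, x0] using congrArg (fun y : Y => y.1.1 0) e
  refine ⟨Y, inferInstance, inferInstance, T, ⟨_, _, hne 0⟩, ?_, T_cont, T_surj, ⟨?_, ?_⟩, ?_, ?_⟩
  · intro x U hU
    obtain ⟨G, hG, K, a, -, -, -, h1, -⟩ := key hU hU 0
    obtain ⟨G', hG', K', a', -, h3, -, h2, -⟩ := key hU hU a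
    by_cases e : φ hG K a = x
    · refine ⟨_, h2, fun e' => ?_⟩
      have h4 : (a' : Z) = a := congrArg (fun y : Y => y.1.2) (e'.trans e.symm)
      have := Nat.cast_injective h4
      omega
    · exact ⟨_, h1, e⟩
  · rintro U V hU ⟨x, hx⟩ hV ⟨w, hw⟩
    obtain ⟨G, hG, K, a, b, -, hab, h1, h2⟩ := key (hU.mem_nhds hx) (hV.mem_nhds hw) 0
    refine ⟨b - a, _, h1, ?_⟩
    rw [Set.mem_preimage, T_φn, ← Nat.cast_add, show a + (b - a) = b by omega]
    exact h2
  · intro x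
    rw [mem_closure_iff_nhds]
    intro U hU
    obtain ⟨G, hG, K, a, -, -, -, h1, -⟩ := key hU hU 0
    exact ⟨_, h1, _, minφ hG K, a, rfl⟩
  · intro h
    have h1 := minφ adm0 0
    have h2 := h.2.2.2 _ (Set.subset_univ _) h1.1 h1.2.1 h1.2.2.1
    obtain ⟨z, hz⟩ : x0 ∈ Set.range (φ adm0 0) := h2 ▸ Set.mem_univ _
    exact hne z hz
  · rintro ⟨δ, hδ, h⟩
    obtain ⟨y, hy, h1, h2⟩ := h x0 {y | y.1.1 0 = true}
      (((isOpen_discrete {true}).preimage (cont_ev 0)).mem_nhds (by simp [x0]))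
    have h3 : dist (0 : Z) y.1.2 ≤ 0 := by
      rw [← h1]
      refine le_liminf_of_le (isCoboundedUnder_ge_of_le atTop (x := Metric.diam (Set.univ : Set Y))
        fun n => Metric.dist_le_diam_of_mem isCompact_univ.isBounded trivial trivial)
        (Eventually.of_forall fun n => ?_)
      have := dist_ge (T^[n] x0) (T^[n] y)
      rwa [T_iter, T_iter, dist_add_right] at this
    have h4 : y.1.2 = 0 := (dist_le_zero.1 h3).symm
    have h5 : y = x0 := by
      refine Subtype.ext (Prod.ext (funext fun n => ?_) h4)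
      cases n with
      | zero => exact hy
      | succ n =>
        have := y.2 0 (n + 1) (n + 1) hy (by rw [h4, zero_add, r_nat, Nat.zero_mod]) (by omega)
          Nat.lt_two_pow_self
        rw [zero_add] at this
        exact this
    rw [h5] at h2
    simp only [dist_self, limsup_const] at h2
    linarith

end Pool.Agent.Results.MP_6bd6f6_an.Counter
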